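import Pool.Agent.H14.RG.Targets

/-!
# Row A_ZER of the board reg_modules: a function which vanishes on the submanifold
-/

set_option autoImplicit false

namespace Pool.Agent.H75.RG

open MeasureTheory Metric Set Filter Topology Pool.Agent.H14.RG Pool.Agent.H87.SN
open scoped ContDiff RealInnerProductSpace ENNReal

/-- The derivative of a coordinate function. -/
theorem fderiv_coord {m c : ℕ} {g : E m → E c} (hg : ContDiff ℝ ∞ g) (k : Fin c) (q w : E m) :
    fderiv ℝ (fun y => g y k) q w = (fderiv ℝ g q w) k := by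
  have h1 : HasFDerivAt g (fderiv ℝ g q) q :=
    (hg.differentiable (by simp) q).hasFDerivAt
  have h2 := (EuclideanSpace.proj k : E c →L[ℝ] ℝ).hasFDerivAt.comp q h1
  have h3 : (fun y => g y k) =
      (EuclideanSpace.proj k : E c →L[ℝ] ℝ) ∘ g := rfl
  rw [h3, h2.fderiv]
  rfl

/-- The scalar case. -/
theorem zer_scalar (hCHN : T_CHN) {n m : ℕ} {N : Set (E m)} {u : E n → E m}
    {G : E n → E n →L[ℝ] E m} (hu : IsW12 u G)
    (hN : ∀ᵐ x ∂(volume.restrict (ball (0 : E n) 2)), u x ∈ N) {g : E m → ℝ}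
    (hg : ContDiff ℝ ∞ g) (hc : HasCompactSupport g) (h0 : ∀ q ∈ N, g q = 0) (v : E n) :
    ∀ᵐ x, x ∈ ball (0 : E n) 2 → fderiv ℝ g (u x) (G x v) = 0 := by
  have hfin : IsFiniteMeasure (volume.restrict (ball (0 : E n) 2)) :=
    ⟨by rw [Measure.restrict_apply_univ]; exact measure_ball_lt_top⟩
  have hN' := (ae_restrict_iff' measurableSet_ball).1 hN
  have hGi : Integrable G (volume.restrict (ball (0 : E n) 2)) :=
    hu.memLp_deriv.integrable one_le_two
  have hcont : Continuous (fderiv ℝ g) := hg.continuous_fderiv (by simp)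
  obtain ⟨B, hB⟩ := (hc.fderiv (𝕜 := ℝ)).exists_bound_of_continuous hcont
  have hGv : Integrable (fun x => G x v) (volume.restrict (ball (0 : E n) 2)) :=
    hGi.apply_continuousLinearMap v
  have hms : AEStronglyMeasurable (fun x => fderiv ℝ g (u x) (G x v))
      (volume.restrict (ball (0 : E n) 2)) := by
    have h1 : AEStronglyMeasurable (fun x => fderiv ℝ g (u x))
        (volume.restrict (ball (0 : E n) 2)) :=
      hcont.comp_aestronglyMeasurable hu.memLp.1
    exact (isBoundedBilinearMap_apply (𝕜 := ℝ) (E := E m) (F := ℝ)).continuous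
      |>.comp_aestronglyMeasurable (h1.prodMk hGv.1)
  have hint : IntegrableOn (fun x => fderiv ℝ g (u x) (G x v)) (ball (0 : E n) 2) := by
    refine Integrable.mono' (hGv.norm.const_mul B) hms (Eventually.of_forall fun x => ?_)
    calc ‖fderiv ℝ g (u x) (G x v)‖ ≤ ‖fderiv ℝ g (u x)‖ * ‖G x v‖ :=
          (fderiv ℝ g (u x)).le_opNorm (G x v)
      _ ≤ B * ‖G x v‖ := mul_le_mul_of_nonneg_right (hB (u x)) (norm_nonneg _)
  apply isOpen_ball.ae_eq_zero_of_integral_contDiff_smul_eq_zero
  · exact hint.locallyIntegrableOn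
  · intro φ h1 h2 h3
    have a1 := hCHN n m u G hu g hg hc φ ⟨h1, h2, h3⟩ v
    have a2 : ∫ x, fderiv ℝ φ x v * g (u x) = 0 := by
      apply integral_eq_zero_of_ae
      filter_upwards [hN'] with x hx
      by_cases hxb : x ∈ ball (0 : E n) 2
      · rw [h0 _ (hx hxb), mul_zero]
        rfl
      · have h4 : fderiv ℝ φ x = 0 := by
          have h5 : x ∉ tsupport φ := fun h => hxb (h3 h)
          have h6 : x ∉ tsupport (fderiv ℝ φ) := fun h => h5 (tsupport_fderiv_subset ℝ h)
          exact image_eq_zero_of_notMem_tsupport h6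
        rw [h4]
        simp
    rw [a2] at a1
    simp only [smul_eq_mul]
    linarith

/-- Row A_ZER. -/
theorem pf_ZER (hCHN : T_CHN) : T_ZER := by
  intro n m c N u G hu hN g hg hc h0
  have key : ∀ᵐ x, ∀ (k : Fin c) (i : Fin n), x ∈ ball (0 : E n) 2 →
      fderiv ℝ (fun y => g y k) (u x) (G x (bv i)) = 0 := by
    rw [ae_all_iff]
    intro k
    rw [ae_all_iff]
    intro i
    have hgk : ContDiff ℝ ∞ (fun y => g y k) :=
      (EuclideanSpace.proj k : E c →L[ℝ] ℝ).contDiff.comp hg
    have hck : HasCompactSupport (fun y => g y k) :=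
      hc.comp_left (g := fun w : E c => w k) rfl
    exact zer_scalar hCHN hu hN hgk hck (fun q hq => by rw [h0 q hq]; rfl) (bv i)
  rw [ae_restrict_iff' measurableSet_ball]
  filter_upwards [key] with x hx hxb v
  ext k
  have h1 : v = ∑ i : Fin n, v i • (bv i : E n) := by
    have h2 := (EuclideanSpace.basisFun (Fin n) ℝ).sum_repr v
    rw [← h2]
    apply Finset.sum_congr rfl
    intro i _
    rw [h2, EuclideanSpace.basisFun_apply, EuclideanSpace.basisFun_repr]
    rfl
  rw [h1]
  simp only [map_sum, map_smul]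
  have h3 : ∀ i : Fin n, fderiv ℝ g (u x) (G x (bv i)) k = 0 := by
    intro i
    rw [← fderiv_coord hg k]
    exact hx k i hxb
  simp [h3]

end Pool.Agent.H75.RG
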