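import Pool.Agent.H48.RG.Targets

/-!
# Row D_UNI of the board reg_modules: the weak gradient is unique
-/

set_option autoImplicit false

namespace Pool.Agent.H75.RG

open MeasureTheory Metric Set Filter Topology Pool.Agent.H48.RG Pool.Agent.H87.SN
open scoped ContDiff RealInnerProductSpace ENNReal

/-- A test function times an integrable function on the ball is integrable. -/
theorem integrable_tst_mul {n : ℕ} {φ h : E n → ℝ} (hφ : Tst (ball (0 : E n) 1) φ)
    (hh : Integrable h (volume.restrict (ball (0 : E n) 1))) : Integrable (fun x => φ x * h x) := by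
  have h1 : Function.support (fun x => φ x * h x) ⊆ ball (0 : E n) 1 := by
    intro x hx
    apply hφ.2.2
    apply subset_tsupport φ
    intro h0
    apply hx
    simp only [h0, zero_mul]
  rw [← integrableOn_iff_integrable_of_support_subset h1]
  obtain ⟨c, hc⟩ := hφ.2.1.exists_bound_of_continuous hφ.1.continuous
  exact hh.bdd_mul hφ.1.continuous.aestronglyMeasurable (Eventually.of_forall hc)

/-- Row D_UNI. -/
theorem pf_UNI : T_UNI := by
  intro n f g Df Dg hf hg hfg
  have hfin : IsFiniteMeasure (volume.restrict (ball (0 : E n) 1)) :=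
    ⟨by rw [Measure.restrict_apply_univ]; exact measure_ball_lt_top⟩
  have hDf : Integrable Df (volume.restrict (ball (0 : E n) 1)) := hf.d2.integrable one_le_two
  have hDg : Integrable Dg (volume.restrict (ball (0 : E n) 1)) := hg.d2.integrable one_le_two
  have hfg' := (ae_restrict_iff' measurableSet_ball).1 hfg
  have key : ∀ i : Fin n, ∀ᵐ x, x ∈ ball (0 : E n) 1 → ⟪Df x - Dg x, bv i⟫ = 0 := by
    intro i
    apply isOpen_ball.ae_eq_zero_of_integral_contDiff_smul_eq_zero
    · have h1 : IntegrableOn (fun x => ⟪Df x - Dg x, bv i⟫) (ball (0 : E n) 1) :=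
        (hDf.sub hDg).inner_const (bv i)
      exact h1.locallyIntegrableOn
    · intro φ h1 h2 h3
      have hφ : Tst (ball (0 : E n) 1) φ := ⟨h1, h2, h3⟩
      have a1 := hf.wg φ hφ (bv i)
      have a2 := hg.wg φ hφ (bv i)
      have a3 : ∫ x, fderiv ℝ φ x (bv i) * f x = ∫ x, fderiv ℝ φ x (bv i) * g x := by
        apply integral_congr_ae
        filter_upwards [hfg'] with x hx
        by_cases hxb : x ∈ ball (0 : E n) 1
        · rw [hx hxb]
        · have h4 : fderiv ℝ φ x = 0 := by
            have h5 : x ∉ tsupport φ := fun h => hxb (h3 h)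
            have h6 : x ∉ tsupport (fderiv ℝ φ) := fun h => h5 (tsupport_fderiv_subset ℝ h)
            exact image_eq_zero_of_notMem_tsupport h6
          rw [h4]
          simp
      have a4 : ∫ x, φ x • ⟪Df x - Dg x, bv i⟫ =
          (∫ x, φ x * ⟪Df x, bv i⟫) - ∫ x, φ x * ⟪Dg x, bv i⟫ := by
        rw [← integral_sub (integrable_tst_mul hφ (hDf.inner_const (bv i)))
          (integrable_tst_mul hφ (hDg.inner_const (bv i)))]
        congr 1
        funext x
        rw [inner_sub_left, smul_eq_mul, mul_sub]
      rw [a4]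
      linarith
  rw [ae_restrict_iff' measurableSet_ball]
  have h1 : ∀ᵐ x, ∀ i : Fin n, x ∈ ball (0 : E n) 1 → ⟪Df x - Dg x, bv i⟫ = 0 :=
    ae_all_iff.2 key
  filter_upwards [h1] with x hx hxb
  rw [← sub_eq_zero]
  ext i
  have h2 := hx i hxb
  unfold bv at h2
  rw [EuclideanSpace.inner_single_right] at h2
  simpa using h2

end Pool.Agent.H75.RG
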