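import Pool.Agent.H75.RG.FDUW

/-!
# Row F_DUE of the board reg_modules: the equation with a dummy variable
-/

set_option autoImplicit false

namespace Pool.Agent.H75.RG

open MeasureTheory Metric Set Filter Topology Pool.Agent.H87.SN Pool.Agent.H90.RG
open scoped ContDiff RealInnerProductSpace ENNReal

/-- The second fundamental form along a map with values in a compact set is integrable on the
ball. -/
theorem integrable_sff {k m : ℕ} {N : Set (E m)} {A : E m → E m →L[ℝ] E m →L[ℝ] E m}
    (hN : IsCompact N) (hA : ContinuousOn A N) {u : E k → E m} {G : E k → E k →L[ℝ] E m}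
    (hu : MemLp u 2 (volume.restrict (ball (0 : E k) 2)))
    (hG : MemLp G 2 (volume.restrict (ball (0 : E k) 2)))
    (huN : ∀ᵐ x ∂(volume.restrict (ball (0 : E k) 2)), u x ∈ N) (v : E k) :
    Integrable (fun x => A (u x) (G x v) (G x v)) (volume.restrict (ball (0 : E k) 2)) := by
  classical
  obtain ⟨C, hC⟩ := @IsCompact.exists_bound_of_continuousOn (E m) (E m →L[ℝ] E m →L[ℝ] E m)
    _ _ _ hN _ hA
  have hGv : MemLp (fun x => G x v) 2 (volume.restrict (ball (0 : E k) 2)) := by
    refine MemLp.of_le_mul (c := ‖v‖) hG ?_ (Eventually.of_forall fun x => ?_)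
    · exact (memLp_int hG).apply_continuousLinearMap v |>.1
    · rw [mul_comm]
      exact (G x).le_opNorm v
  have hms : AEStronglyMeasurable (fun x => A (u x)) (volume.restrict (ball (0 : E k) 2)) := by
    have h1 : Measurable (N.piecewise A 0) :=
      hA.measurable_piecewise continuousOn_const hN.measurableSet
    have h2 : AEStronglyMeasurable (fun x => N.piecewise A 0 (u x))
        (volume.restrict (ball (0 : E k) 2)) :=
      (h1.comp_aemeasurable hu.1.aemeasurable).aestronglyMeasurable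
    refine h2.congr ?_
    filter_upwards [huN] with x hx
    exact piecewise_eq_of_mem N A 0 hx
  have hms2 : AEStronglyMeasurable (fun x => A (u x) (G x v))
      (volume.restrict (ball (0 : E k) 2)) :=
    (isBoundedBilinearMap_apply (𝕜 := ℝ) (E := E m) (F := E m →L[ℝ] E m)).continuous
      |>.comp_aestronglyMeasurable (hms.prodMk hGv.1)
  have hms3 : AEStronglyMeasurable (fun x => A (u x) (G x v) (G x v))
      (volume.restrict (ball (0 : E k) 2)) :=
    (isBoundedBilinearMap_apply (𝕜 := ℝ) (E := E m) (F := E m)).continuous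
      |>.comp_aestronglyMeasurable (hms2.prodMk hGv.1)
  have hsq : Integrable (fun x => ‖G x v‖ ^ 2) (volume.restrict (ball (0 : E k) 2)) :=
    hGv.integrable_norm_pow (by norm_num)
  refine Integrable.mono' (hsq.const_mul C) hms3 ?_
  filter_upwards [huN] with x hx
  calc ‖A (u x) (G x v) (G x v)‖ ≤ ‖A (u x) (G x v)‖ * ‖G x v‖ := (A (u x) (G x v)).le_opNorm _
    _ ≤ ‖A (u x)‖ * ‖G x v‖ * ‖G x v‖ :=
      mul_le_mul_of_nonneg_right ((A (u x)).le_opNorm _) (norm_nonneg _)
    _ ≤ C * ‖G x v‖ * ‖G x v‖ := by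
      gcongr
      exact hC (u x) hx
    _ = C * ‖G x v‖ ^ 2 := by ring

/-- Row F_DUE. -/
theorem pf_DUE (hA : T_CNA) (hF : T_CNF) (hT : T_CNT) (hL : T_DML) : T_DUE := by
  intro n m N A u G hN hAN hSH φ hφ
  obtain ⟨hL1, hL2, hL3⟩ := hL n m u G
  have hm1 := hL1 hSH.w12.memLp
  have hm2 := (hL2 hSH.w12.memLp_deriv).1
  have hm3 := hL3 (fun y => u y ∈ N) hSH.mem
  obtain ⟨hA1, hA2, hA3, hA4, hA5, hA6⟩ := hA n
  obtain ⟨hT1, hT2⟩ := (hT n).1 φ hφ
  have hi2 := memLp_int hm2
  have i1 : Integrable (fun x => ∑ i : Fin n, fderiv ℝ φ x (bv i.succ) • tg G x (bv i.succ)) := by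
    apply integrable_finsetSum
    intro i _
    obtain ⟨c1, c2, c3⟩ := test_fderiv hφ (bv i.succ)
    exact integrable_smul_supp c1 c2 c3 (hi2.apply_continuousLinearMap (bv i.succ))
  have i2 : Integrable (fun x => φ x • ∑ i : Fin n,
      A (u (tl x)) (tg G x (bv i.succ)) (tg G x (bv i.succ))) := by
    apply integrable_smul_supp hφ.1.continuous hφ.2.1 hφ.2.2
    apply integrable_finsetSum
    intro i _
    exact integrable_sff hN hAN hm1 hm2 hm3 (bv i.succ)
  have t0 : ∀ x, tg G x (bv 0) = 0 := by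
    intro x
    change G (tl x) (tl (bv 0)) = 0
    rw [hA4, map_zero]
  have ts : ∀ (x : E (n + 1)) (i : Fin n), tg G x (bv i.succ) = G (tl x) (bv i) := by
    intro x i
    change G (tl x) (tl (bv i.succ)) = _
    rw [(hA5 i).1]
  have e1 : ∀ x, ∑ i : Fin (n + 1), (fderiv ℝ φ x (bv i)) • tg G x (bv i) =
      ∑ i : Fin n, fderiv ℝ φ x (bv i.succ) • tg G x (bv i.succ) := by
    intro x
    rw [Fin.sum_univ_succ, t0, smul_zero, zero_add]
  have e2 : ∀ x, φ x • ∑ i : Fin (n + 1), A (u (tl x)) (tg G x (bv i)) (tg G x (bv i)) =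
      φ x • ∑ i : Fin n, A (u (tl x)) (tg G x (bv i.succ)) (tg G x (bv i.succ)) := by
    intro x
    rw [Fin.sum_univ_succ, t0, map_zero, zero_add]
  simp_rw [e1, e2]
  rw [((hF n m).1 _ i1).2.2.2, ((hF n m).1 _ i2).2.2.2]
  congr 1
  funext t
  have h1 := hSH.harmonic (fun y => φ (cn t y)) (hT1 t).1
  simp_rw [(hT1 t).2, fun i : Fin n => (hA5 i).2] at h1
  simp_rw [ts, fun y : E n => (hA1 t y).2.1]
  exact h1

end Pool.Agent.H75.RG
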