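import Pool.Agent.H90.RG.Targets

/-!
# Row F_DUW of the board reg_modules: the weak gradient with a dummy variable
-/

set_option autoImplicit false

namespace Pool.Agent.H75.RG

open MeasureTheory Metric Set Filter Topology Pool.Agent.H87.SN Pool.Agent.H90.RG
open scoped ContDiff RealInnerProductSpace ENNReal

/-- A continuous function with compact support in the ball times an integrable function. -/
theorem integrable_smul_supp {k m : ℕ} {ψ : E k → ℝ} {w : E k → E m} (h1 : Continuous ψ)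
    (h2 : HasCompactSupport ψ) (h3 : tsupport ψ ⊆ ball 0 2)
    (hw : Integrable w (volume.restrict (ball (0 : E k) 2))) : Integrable (fun x => ψ x • w x) := by
  have h4 : Function.support (fun x => ψ x • w x) ⊆ ball (0 : E k) 2 := by
    intro x hx
    apply h3
    apply subset_tsupport ψ
    intro h0
    apply hx
    simp only [h0, zero_smul]
  rw [← integrableOn_iff_integrable_of_support_subset h4]
  obtain ⟨c, hc⟩ := h2.exists_bound_of_continuous h1
  exact hw.bdd_smul c h1.aestronglyMeasurable (Eventually.of_forall hc)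

/-- The derivative of a test function in a direction is continuous with compact support. -/
theorem test_fderiv {k : ℕ} {φ : E k → ℝ} (hφ : IsTest φ) (v : E k) :
    Continuous (fun x => fderiv ℝ φ x v) ∧ HasCompactSupport (fun x => fderiv ℝ φ x v) ∧
      tsupport (fun x => fderiv ℝ φ x v) ⊆ ball 0 2 := by
  have h1 : Continuous (fderiv ℝ φ) := hφ.1.continuous_fderiv (by simp)
  have h2 : tsupport (fun x => fderiv ℝ φ x v) ⊆ tsupport φ :=
    tsupport_fderiv_apply_subset ℝ v
  exact ⟨h1.clm_apply continuous_const, hφ.2.1.fderiv_apply (𝕜 := ℝ) v, h2.trans hφ.2.2⟩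

/-- Square integrable functions on the ball are integrable. -/
theorem memLp_int {k : ℕ} {F : Type} [NormedAddCommGroup F] {w : E k → F}
    (hw : MemLp w 2 (volume.restrict (ball (0 : E k) 2))) :
    Integrable w (volume.restrict (ball (0 : E k) 2)) := by
  have hfin : IsFiniteMeasure (volume.restrict (ball (0 : E k) 2)) :=
    ⟨by rw [Measure.restrict_apply_univ]; exact measure_ball_lt_top⟩
  exact hw.integrable one_le_two

/-- Row F_DUW. -/
theorem pf_DUW (hA : T_CNA) (hF : T_CNF) (hT : T_CNT) (hL : T_DML) : T_DUW := by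
  intro n m u G hu
  obtain ⟨hL1, hL2, -⟩ := hL n m u G
  have hm1 := hL1 hu.memLp
  have hm2 := (hL2 hu.memLp_deriv).1
  refine ⟨hm1, hm2, ?_⟩
  intro φ hφ v
  obtain ⟨hA1, hA2, hA3, hA4, hA5, hA6⟩ := hA n
  obtain ⟨hT1, hT2⟩ := (hT n).1 φ hφ
  have hi1 := memLp_int hm1
  have hi2 := memLp_int hm2
  -- the two parts of the direction
  have hv : v = v 0 • bv 0 + cn 0 (tl v) := by
    rw [← hA3 (v 0) (tl v), (hA2 v).1]
  have e1 : ∀ x, fderiv ℝ φ x v = v 0 * fderiv ℝ φ x (bv 0) + fderiv ℝ φ x (cn 0 (tl v)) := by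
    intro x
    conv_lhs => rw [hv]
    rw [map_add, map_smul, smul_eq_mul]
  obtain ⟨c1, c2, c3⟩ := test_fderiv hφ (bv 0)
  obtain ⟨d1, d2, d3⟩ := test_fderiv hφ (cn 0 (tl v))
  have i1 : Integrable (fun x => fderiv ℝ φ x (bv 0) • u (tl x)) :=
    integrable_smul_supp c1 c2 c3 hi1
  have i2 : Integrable (fun x => fderiv ℝ φ x (cn 0 (tl v)) • u (tl x)) :=
    integrable_smul_supp d1 d2 d3 hi1
  have i3 : Integrable (fun x => φ x • tg G x v) :=
    integrable_smul_supp hφ.1.continuous hφ.2.1 hφ.2.2 (hi2.apply_continuousLinearMap v)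
  have s1 : ∫ x, fderiv ℝ φ x (bv 0) • u (tl x) = 0 := by
    rw [((hF n m).1 _ i1).2.2.1]
    have h1 : ∀ y : E n, ∫ t, fderiv ℝ φ (cn t y) (bv 0) • u (tl (cn t y)) = 0 := by
      intro y
      have h2 : ∀ t : ℝ, fderiv ℝ φ (cn t y) (bv 0) • u (tl (cn t y)) =
          fderiv ℝ φ (cn t y) (bv 0) • u y := by
        intro t
        rw [(hA1 t y).2.1]
      simp_rw [h2]
      rw [integral_smul_const, hT2 y, zero_smul]
    simp_rw [h1]
    simp
  have s2 : ∫ x, fderiv ℝ φ x (cn 0 (tl v)) • u (tl x) = - ∫ x, φ x • tg G x v := by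
    rw [((hF n m).1 _ i2).2.2.2, ((hF n m).1 _ i3).2.2.2, ← integral_neg]
    congr 1
    funext t
    have h1 := hu.weak (fun y => φ (cn t y)) (hT1 t).1 (tl v)
    simp_rw [(hT1 t).2] at h1
    have h2 : ∀ y : E n, fderiv ℝ φ (cn t y) (cn 0 (tl v)) • u (tl (cn t y)) =
        fderiv ℝ φ (cn t y) (cn 0 (tl v)) • u y := by
      intro y
      rw [(hA1 t y).2.1]
    have h3 : ∀ y : E n, φ (cn t y) • tg G (cn t y) v = φ (cn t y) • G y (tl v) := by
      intro y
      change φ (cn t y) • G (tl (cn t y)) (tl v) = _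
      rw [(hA1 t y).2.1]
    simp_rw [h2, h3]
    exact h1
  have s3 : ∀ x, fderiv ℝ φ x v • u (tl x) =
      v 0 • (fderiv ℝ φ x (bv 0) • u (tl x)) + fderiv ℝ φ x (cn 0 (tl v)) • u (tl x) := by
    intro x
    rw [e1 x, add_smul, mul_smul]
  have i4 : Integrable (fun x => v 0 • (fderiv ℝ φ x (bv 0) • u (tl x))) := i1.smul (v 0)
  simp_rw [s3]
  rw [integral_add i4 i2, integral_smul, s1, smul_zero, zero_add]
  exact s2

end Pool.Agent.H75.RG
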